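import Pool.Agent.N140.RO.Cnt
import Pool.Agent.N18.KM.Base
import Pool.Agent.N24.KM.All

/-!
# Metric sequences and countably many data over all finite extensions of a number field

The analogue of `Pool.Agent.N140.RO.Cnt2` (random orbits, helper140) for the metric sequences of
helper24, with one set of density zero (helper18).
-/

set_option autoImplicit false

namespace Pool.Agent.N94.KM

open NumberField MeasureTheory Filter Topology
open Pool.Agent.N24.RW Pool.Agent.N24.KM

/-- a property which follows from rare visits in pronull sets, one for every datum over every finite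
extension of `K`, holds for almost all metric sequences -/
theorem parts_t {K : Type} [Field K] [NumberField K] {ι : Type} [Fintype ι]
    (T : ∀ (E : Type) [Field E], Type)
    (hT : ∀ (E : Type) [Field E], Countable E → Countable (T E))
    (G : ∀ (E : Type) [Field E] [Algebra K E], T E → (ι → ℤ) → Prop)
    (hG : ∀ (E : Type) [Field E] [NumberField E] [Algebra K E] (t : T E), ProNull {c | ¬ G E t c})
    (P : (ℕ → ι → ℤ) → Prop)
    (hP : ∀ (c : ℕ → ι → ℤ) (X : Set ℕ),
      Tendsto (fun N : ℕ => (({n : ℕ | n < N ∧ n ∈ X}.ncard : ℕ) : ℝ) / (N : ℝ)) atTop (𝓝 0) →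
      (∀ E : IntermediateField K (AlgebraicClosure K), FiniteDimensional K E →
        ∀ t : T E, {n : ℕ | n ∉ X ∧ ¬ G E t (c n)}.Finite) → P c) :
    (∀ (a b : ι → ℝ) (f : ι → ℕ → ℝ → ℝ), (∀ i, a i < b i) → (∀ i, Koksma (a i) (b i) (f i)) →
      ∀ᵐ α : ι → ℝ, (∀ i, α i ∈ Set.Icc (a i) (b i)) → P (fun n i => ⌊f i n (α i)⌋)) ∧
    (∀ (a : ι → ℕ → ℝ) (δ : ℝ), 0 < δ → (∀ i m n, m ≠ n → δ ≤ |a i m - a i n|) →
      ∀ᵐ α : ι → ℝ, P (fun n i => ⌊a i n * α i⌋)) ∧
    (∀ (k : ℕ → ℕ) (ξ : ι → ℝ), Function.Injective k → (∀ i, ξ i ≠ 0) →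
      ∀ᵐ α : ι → ℝ, (∀ i, 1 < α i) → P (fun n i => ⌊ξ i * α i ^ k n⌋)) := by
  have hcK := Pool.Agent.N140.RO.countable_algClosure K
  let κ₀ : Type := {S : Finset (AlgebraicClosure K) //
    FiniteDimensional K (IntermediateField.adjoin K (S : Set (AlgebraicClosure K)))}
  let κ : Type := Σ S : κ₀, T (IntermediateField.adjoin K (S.1 : Set (AlgebraicClosure K)))
  have hc0 : Countable κ₀ := inferInstance
  have hcT : ∀ S : κ₀, Countable
      (T (IntermediateField.adjoin K (S.1 : Set (AlgebraicClosure K)))) := fun S =>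
    hT _ inferInstance
  have hκ : Countable κ := inferInstance
  refine Pool.Agent.N18.KM.parts Pool.Agent.N24.KM.main (κ := κ)
    (fun x => {c | ¬ G (IntermediateField.adjoin K (x.1.1 : Set (AlgebraicClosure K))) x.2 c})
    (fun x => ?_) P fun c hc => ?_
  · have hfd := x.1.2
    have hnf : NumberField
        (IntermediateField.adjoin K (x.1.1 : Set (AlgebraicClosure K))) := by
      have : CharZero (IntermediateField.adjoin K (x.1.1 : Set (AlgebraicClosure K))) :=
        charZero_of_injective_algebraMap (algebraMap K _).injective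
      have : FiniteDimensional ℚ
          (IntermediateField.adjoin K (x.1.1 : Set (AlgebraicClosure K))) :=
        FiniteDimensional.trans ℚ K _
      exact ⟨⟩
    exact hG _ x.2
  · obtain ⟨X, e1, e2⟩ := Pool.Agent.N18.KM.one_set c _ hc
    refine hP c X e1 fun E hE => ?_
    obtain ⟨S, hS⟩ : E.FG := by
      refine IntermediateField.fg_of_fg_toSubalgebra E ?_
      rw [Subalgebra.fg_iff_finiteType]
      have : FiniteDimensional K E.toSubalgebra := hE
      infer_instance
    subst hS
    intro t
    exact e2 ⟨⟨S, hE⟩, t⟩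

end Pool.Agent.N94.KM
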